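import Pool.Agent.Helper52.ES.Spec2

set_option autoImplicit false

/-! # Module PTX: the coordinates are computable in polynomial time, in binary -/

namespace Pool.Agent.Helper27.ES

open Pool.Agent.Helper52.ES
open Pool.Agent.Helper58 Pool.Agent.Helper53.CL Function
open Pool.Agent.Helper52.Grid

variable {γ : Type} [Enc γ]

theorem pbin_ite {c : γ → Prop} [DecidablePred c] {f g : γ → ℕ} (hc : PTf (fun x => decide (c x)))
    (hf : PBin f) (hg : PBin g) : PBin (fun x => if c x then f x else g x) := by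
  have h : PTf (fun x => if c x then (⟨f x⟩ : Wr ℕ) else ⟨g x⟩) := by fun_prop
  refine h.congr (fun x => ?_)
  by_cases hx : c x
  · simp only [if_pos hx]
  · simp only [if_neg hx]

theorem pbin_const (n : ℕ) : PBin (fun _ : γ => n) := PTf.const _

/-! ### unary data -/

theorem ptf_e {d : γ → Dat} (hd : PTf d) : PTf (fun x => (par (d x)).e) := by
  have h : PTf (fun x => (d x).2.1) := by fun_prop
  exact h

theorem ptf_len {d : γ → Dat} (hd : PTf d) : PTf (fun x => (par (d x)).s.length) := by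
  have h : PTf (fun x => (d x).1.1) := by fun_prop
  exact PTf.length (α := Option (ℕ × Bool)) h

theorem ptf_K0 {d : γ → Dat} (hd : PTf d) : PTf (fun x => (par (d x)).K0) := by
  have h := ptf_len hd
  unfold Par.K0
  fun_prop

theorem ptf_rows {d : γ → Dat} (hd : PTf d) : PTf (fun x => (par (d x)).rows) := by
  have h : PTf (fun x => 2 * (d x).1.2 + 1) := by fun_prop
  exact h

theorem ptf_h {d : γ → Dat} {x y : γ → ℕ} (hd : PTf d) (hx : PTf x) (hy : PTf y) :
    PTf (fun a => (par (d a)).h (x a) (y a)) := by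
  have h1 := ptf_K0 hd
  have h2 := ptf_rows hd
  have h3 : PTf (fun a => hC (d a).1.1 (d a).1.2 (x a) (y a)) :=
    ptf_hC (by fun_prop) (by fun_prop) hx hy
  have h4 : PTf (fun a => hC (par (d a)).s (par (d a)).M (x a) (y a)) := h3
  unfold Par.h
  fun_prop

theorem ptf_v {d : γ → Dat} {x y : γ → ℕ} (hd : PTf d) (hx : PTf x) (hy : PTf y) :
    PTf (fun a => (par (d a)).v (x a) (y a)) := by
  have h1 := ptf_K0 hd
  have h2 := ptf_rows hd
  have h3 : PTf (fun a => vC (d a).1.1 (d a).1.2 (x a) (y a)) :=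
    ptf_vC (by fun_prop) (by fun_prop) hx hy
  have h4 : PTf (fun a => vC (par (d a)).s (par (d a)).M (x a) (y a)) := h3
  have h5 : PTf (fun a => (d a).1.2) := by fun_prop
  have h6 : PTf (fun a => (par (d a)).M) := h5
  unfold Par.v
  fun_prop

theorem ptf_fd {d : γ → Dat} {x y : γ → ℕ} (hd : PTf d) (hx : PTf x) (hy : PTf y) :
    PTf (fun a => (par (d a)).fd (x a) (y a)) := by
  have h1 := ptf_h hd hx hy
  have h2 : PTf (fun a => (par (d a)).h (x a - 1) (y a)) := ptf_h hd (by fun_prop) hy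
  have h3 := ptf_v hd hx hy
  have h4 : PTf (fun a => (par (d a)).v (x a) (y a - 1)) := ptf_v hd hx (by fun_prop)
  unfold Par.fd
  fun_prop

theorem ptf_lring {x y : γ → ℕ} (hx : PTf x) (hy : PTf y) :
    PTf (fun a => Par.lring (x a) (y a)) := by
  unfold Par.lring
  fun_prop

/-! ### binary data -/

theorem ptf_row {d : γ → Dat} {i : γ → ℕ} (hd : PTf d) (hi : PTf i) :
    PTf (fun x => row (d x).2.2 (i x)) := by
  have h : PTf (fun x => (d x).2.2) := by fun_prop
  unfold row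
  exact ptf_getD h hi (PTf.const _)

theorem pbin_A {d : γ → Dat} {i : γ → ℕ} (hd : PTf d) (hi : PTf i) :
    PBin (fun x => (par (d x)).A (i x)) := PTf.fst (ptf_row hd hi)

theorem pbin_C {d : γ → Dat} {i : γ → ℕ} (hd : PTf d) (hi : PTf i) :
    PBin (fun x => (par (d x)).C (i x)) := PTf.fst (PTf.snd (ptf_row hd hi))

theorem pbin_R {d : γ → Dat} {i : γ → ℕ} (hd : PTf d) (hi : PTf i) :
    PBin (fun x => (par (d x)).R (i x)) := PTf.snd (PTf.snd (ptf_row hd hi))

theorem pbin_u (B : BNS) {d : γ → Dat} (hd : PTf d) : PBin (fun x => (par (d x)).u) :=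
  B.two γ _ (ptf_e hd)

theorem pbin_cu (B : BNS) {d : γ → Dat} (hd : PTf d) (k : ℕ) :
    PBin (fun x => k * (par (d x)).u) := B.mul γ _ _ (pbin_const k) (pbin_u B hd)

theorem pbin_H (B : BNS) {d : γ → Dat} {i : γ → ℕ} (hd : PTf d) (hi : PTf i) :
    PBin (fun x => (par (d x)).H (i x)) :=
  B.half γ _ (B.sub γ _ _ (B.add γ _ _ (pbin_R hd hi) (pbin_A hd hi)) (pbin_C hd hi))

theorem pbin_X (B : BNS) {d : γ → Dat} {i : γ → ℕ} (hd : PTf d) (hi : PTf i) :
    PBin (fun x => (par (d x)).X (i x)) :=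
  B.add γ _ _ (B.mul γ _ _ (pbin_cu B hd 16) (B.un γ _ hi))
    (pbin_ite (by fun_prop) (pbin_cu B hd 2) (pbin_const 0))

theorem pbin_Y (B : BNS) {d : γ → Dat} {i : γ → ℕ} (hd : PTf d) (hi : PTf i) :
    PBin (fun x => (par (d x)).Y (i x)) :=
  B.sub γ _ _ (B.mul γ _ _ (pbin_cu B hd 14) (B.un γ _ hi))
    (pbin_ite (by fun_prop) (pbin_cu B hd 2) (pbin_const 0))

theorem ptx : specPTX := by
  intro B γ _ d a hd ha
  have hK := ptf_K0 hd
  have a1 : PTf (fun x => (a x).1) := by fun_prop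
  have a2 : PTf (fun x => (a x).2.1) := by fun_prop
  have a3 : PTf (fun x => (a x).2.2.1) := by fun_prop
  have a4 : PTf (fun x => (a x).2.2.2) := by fun_prop
  have hi : PTf (fun x => ((a x).2.2.1 - 4) / 6) := by fun_prop
  have hA := pbin_A hd hi
  have hH := pbin_H B hd hi
  have hA2 := pbin_A hd a2
  have hC2 := pbin_C hd a2
  have hR2 := pbin_R hd a2
  have hH2 := pbin_H B hd a2
  have hk := B.two γ _ a4
  have hX := pbin_X B hd a2
  have hXK := pbin_X B hd hK
  have hY := pbin_Y B hd a3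
  have hY7 : PBin (fun x => (par (d x)).Y (7 + 6 * (a x).2.1)) := pbin_Y B hd (by fun_prop)
  have h0 := pbin_const (γ := γ) 0
  refine ⟨?_, ?_, ?_⟩
  · unfold Par.px
    refine pbin_ite (by fun_prop) (B.add γ _ _ hX (pbin_ite (by fun_prop) hA h0)) ?_
    refine pbin_ite (by fun_prop) (B.add γ _ _ hX (pbin_ite (by fun_prop) (pbin_cu B hd 7)
      (pbin_cu B hd 8))) ?_
    refine pbin_ite (by fun_prop) (B.add γ _ _ hX (pbin_ite (by fun_prop) hA h0)) ?_
    refine pbin_ite (by fun_prop) (B.add γ _ _ hXK (pbin_ite (by fun_prop) hA2 h0)) ?_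
    refine pbin_ite (by fun_prop) hXK ?_
    refine pbin_ite (by fun_prop) (B.sub γ _ _ hXK hk) ?_
    refine pbin_ite (by fun_prop) (B.add γ _ _ hXK hA2) ?_
    exact B.add γ _ _ (B.add γ _ _ hXK hA2) hk
  · unfold Par.py
    refine pbin_ite (by fun_prop) (B.sub γ _ _ hY (pbin_ite (by fun_prop) hH h0)) ?_
    refine pbin_ite (by fun_prop) (B.sub γ _ _ hY (pbin_ite (by fun_prop) hH h0)) ?_
    refine pbin_ite (by fun_prop) (B.add γ _ _ hY (pbin_cu B hd 7)) ?_
    refine pbin_ite (by fun_prop) (pbin_ite (by fun_prop) hY7 (pbin_ite (by fun_prop)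
      (B.add γ _ _ hY7 hC2) (B.sub γ _ _ hY7 hH2))) ?_
    refine pbin_ite (by fun_prop) (B.sub γ _ _ (B.sub γ _ _ hY7 hH2) hk) ?_
    refine pbin_ite (by fun_prop) hY7 ?_
    refine pbin_ite (by fun_prop) (B.add γ _ _ (B.add γ _ _ hY7 hC2) hk) ?_
    exact B.sub γ _ _ hY7 hH2
  · have hf := ptf_fd hd a2 a3
    have hl := ptf_lring a2 a3
    unfold Par.one
    refine pbin_ite (by fun_prop) (pbin_ite (by fun_prop) (pbin_ite ?_ (pbin_cu B hd 7)
      (pbin_ite (by fun_prop) (pbin_cu B hd 8) (pbin_cu B hd 6))) h0) ?_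
    · exact hl.congr (fun x => by cases Par.lring (a x).2.1 (a x).2.2.1 <;> rfl)
    refine pbin_ite (by fun_prop) (pbin_ite (by fun_prop) hA2 (pbin_ite (by fun_prop) hR2 h0)) h0

end Pool.Agent.Helper27.ES
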